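import Mathlib

set_option autoImplicit false

namespace Pool.Agent.Helper46K9.BP

/-- One round of the `3`-neighbour process for the adjacency relation `adj`. -/
def step {V : Type} (adj : V → V → Prop) (A : Set V) : Set V :=
  A ∪ {v | 3 ≤ {u | u ∈ A ∧ adj u v}.ncard}

/-- All cells infected at some time. -/
def closure {V : Type} (adj : V → V → Prop) (A : Set V) : Set V :=
  ⋃ t : ℕ, (step adj)^[t] A

variable {V : Type} {adj : V → V → Prop}

lemma subset_step (A : Set V) : A ⊆ step adj A := Set.subset_union_left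

lemma step_mono [Finite V] {A B : Set V} (h : A ⊆ B) : step adj A ⊆ step adj B := by
  intro v hv
  rcases hv with hv | hv
  · exact Or.inl (h hv)
  · refine Or.inr ?_
    rw [Set.mem_ofPred_eq] at hv ⊢
    refine le_trans hv ?_
    exact Set.ncard_le_ncard (fun u hu => ⟨h hu.1, hu.2⟩) (Set.toFinite _)

lemma iter_subset_succ (A : Set V) (t : ℕ) : (step adj)^[t] A ⊆ (step adj)^[t+1] A := by
  rw [Function.iterate_succ_apply']
  exact subset_step _

lemma iter_mono (A : Set V) {s t : ℕ} (h : s ≤ t) : (step adj)^[s] A ⊆ (step adj)^[t] A := by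
  induction t, h using Nat.le_induction with
  | base => exact le_rfl
  | succ t _ ih => exact ih.trans (iter_subset_succ A t)

lemma closure_subset [Finite V] {A B : Set V} (h : A ⊆ B) (hB : step adj B ⊆ B) : closure adj A ⊆ B := by
  refine Set.iUnion_subset fun t => ?_
  induction t with
  | zero => exact h
  | succ t ih =>
    rw [Function.iterate_succ_apply']
    exact (step_mono ih).trans hB

lemma subset_closure (A : Set V) : A ⊆ closure adj A :=
  Set.subset_iUnion (fun t => (step adj)^[t] A) 0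

lemma infect [Finite V] {A : Set V} {v a b c : V} (ha : a ∈ closure adj A) (hb : b ∈ closure adj A)
    (hc : c ∈ closure adj A) (hab : a ≠ b) (hac : a ≠ c) (hbc : b ≠ c)
    (h1 : adj a v) (h2 : adj b v) (h3 : adj c v) : v ∈ closure adj A := by
  obtain ⟨s, hs⟩ := Set.mem_iUnion.1 ha
  obtain ⟨t, ht⟩ := Set.mem_iUnion.1 hb
  obtain ⟨u, hu⟩ := Set.mem_iUnion.1 hc
  refine Set.mem_iUnion.2 ⟨max s (max t u) + 1, ?_⟩
  rw [Function.iterate_succ_apply']
  refine Or.inr ?_
  have e : ({a, b, c} : Set V).ncard = 3 := Set.ncard_eq_three.2 ⟨a, b, c, hab, hac, hbc, rfl⟩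
  rw [Set.mem_ofPred_eq, ← e]
  refine Set.ncard_le_ncard ?_ (Set.toFinite _)
  rintro x (rfl | rfl | rfl)
  · exact ⟨iter_mono A (le_max_left _ _) hs, h1⟩
  · exact ⟨iter_mono A ((le_max_left _ _).trans (le_max_right _ _)) ht, h2⟩
  · exact ⟨iter_mono A ((le_max_right _ _).trans (le_max_right _ _)) hu, h3⟩

/-- the adjacency of the strong product `P_m ⊠ P_n` -/
def Adj {m n : ℕ} (u v : Fin m × Fin n) : Prop :=
  u ≠ v ∧ |(u.1 : ℤ) - (v.1 : ℤ)| ≤ 1 ∧ |(u.2 : ℤ) - (v.2 : ℤ)| ≤ 1

end Pool.Agent.Helper46K9.BP
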