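import Pool.Agent.Helper46K9.BP.Basic

set_option autoImplicit false

namespace Pool.Agent.Helper46K9.BP

variable {m n : ℕ}

/-- `C i j` : the cell with the coordinates `i, j` (counted from 0) lies in the board and in `S` -/
def At (S : Set (Fin m × Fin n)) (i j : ℕ) : Prop := ∃ (hi : i < m) (hj : j < n), (⟨i, hi⟩, ⟨j, hj⟩) ∈ S

lemma at_of {A : Set (Fin m × Fin n)} {i j a1 b1 a2 b2 a3 b3 : ℕ} (hi : i < m) (hj : j < n)
    (h1 : At (closure Adj A) a1 b1) (h2 : At (closure Adj A) a2 b2) (h3 : At (closure Adj A) a3 b3)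
    (d12 : a1 ≠ a2 ∨ b1 ≠ b2) (d13 : a1 ≠ a3 ∨ b1 ≠ b3) (d23 : a2 ≠ a3 ∨ b2 ≠ b3)
    (n1 : (a1 ≠ i ∨ b1 ≠ j) ∧ a1 ≤ i + 1 ∧ i ≤ a1 + 1 ∧ b1 ≤ j + 1 ∧ j ≤ b1 + 1)
    (n2 : (a2 ≠ i ∨ b2 ≠ j) ∧ a2 ≤ i + 1 ∧ i ≤ a2 + 1 ∧ b2 ≤ j + 1 ∧ j ≤ b2 + 1)
    (n3 : (a3 ≠ i ∨ b3 ≠ j) ∧ a3 ≤ i + 1 ∧ i ≤ a3 + 1 ∧ b3 ≤ j + 1 ∧ j ≤ b3 + 1) :
    At (closure Adj A) i j := by
  obtain ⟨p1, q1, r1⟩ := h1
  obtain ⟨p2, q2, r2⟩ := h2
  obtain ⟨p3, q3, r3⟩ := h3
  refine ⟨hi, hj, infect r1 r2 r3 ?_ ?_ ?_ ?_ ?_ ?_⟩
  · simp only [ne_eq, Prod.mk.injEq, Fin.mk.injEq]; omega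
  · simp only [ne_eq, Prod.mk.injEq, Fin.mk.injEq]; omega
  · simp only [ne_eq, Prod.mk.injEq, Fin.mk.injEq]; omega
  · refine ⟨by simp only [ne_eq, Prod.mk.injEq, Fin.mk.injEq]; omega, ?_, ?_⟩ <;>
      simp only [abs_le] <;> omega
  · refine ⟨by simp only [ne_eq, Prod.mk.injEq, Fin.mk.injEq]; omega, ?_, ?_⟩ <;>
      simp only [abs_le] <;> omega
  · refine ⟨by simp only [ne_eq, Prod.mk.injEq, Fin.mk.injEq]; omega, ?_, ?_⟩ <;>
      simp only [abs_le] <;> omega

lemma univ_of_at {S : Set (Fin m × Fin n)} (h : ∀ i j, i < m → j < n → At S i j) :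
    S = Set.univ := by
  refine Set.eq_univ_of_forall fun u => ?_
  obtain ⟨_, _, h⟩ := h u.1 u.2 u.1.2 u.2.2
  exact h

lemma at_mem {A : Set (Fin m × Fin n)} {i j : ℕ} (hi : i < m) (hj : j < n)
    (h : ((⟨i, hi⟩, ⟨j, hj⟩) : Fin m × Fin n) ∈ A) : At (closure Adj A) i j :=
  ⟨hi, hj, subset_closure A h⟩

/-- three cells in a row infect everything -/
lemma three_infect (hm : 3 ≤ m) (hn : 3 ≤ n) :
    closure Adj ({(⟨1, by omega⟩, ⟨0, by omega⟩), (⟨1, by omega⟩, ⟨1, by omega⟩),
      (⟨1, by omega⟩, ⟨2, by omega⟩)} : Set (Fin m × Fin n)) = Set.univ := by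
  set A : Set (Fin m × Fin n) := {(⟨1, by omega⟩, ⟨0, by omega⟩), (⟨1, by omega⟩, ⟨1, by omega⟩),
      (⟨1, by omega⟩, ⟨2, by omega⟩)} with hA
  have a10 : At (closure Adj A) 1 0 := at_mem (by omega) (by omega) (by simp [hA])
  have a11 : At (closure Adj A) 1 1 := at_mem (by omega) (by omega) (by simp [hA])
  have a12 : At (closure Adj A) 1 2 := at_mem (by omega) (by omega) (by simp [hA])
  have a01 : At (closure Adj A) 0 1 := at_of (by omega) (by omega) a10 a11 a12
    (by omega) (by omega) (by omega) (by omega) (by omega) (by omega)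
  have a21 : At (closure Adj A) 2 1 := at_of (by omega) (by omega) a10 a11 a12
    (by omega) (by omega) (by omega) (by omega) (by omega) (by omega)
  have a00 : At (closure Adj A) 0 0 := at_of (by omega) (by omega) a10 a11 a01
    (by omega) (by omega) (by omega) (by omega) (by omega) (by omega)
  have a02 : At (closure Adj A) 0 2 := at_of (by omega) (by omega) a11 a12 a01
    (by omega) (by omega) (by omega) (by omega) (by omega) (by omega)
  have a20 : At (closure Adj A) 2 0 := at_of (by omega) (by omega) a10 a11 a21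
    (by omega) (by omega) (by omega) (by omega) (by omega) (by omega)
  have a22 : At (closure Adj A) 2 2 := at_of (by omega) (by omega) a11 a12 a21
    (by omega) (by omega) (by omega) (by omega) (by omega) (by omega)
  -- the first three rows
  have h3 : ∀ j, j < n → At (closure Adj A) 0 j ∧ At (closure Adj A) 1 j ∧ At (closure Adj A) 2 j := by
    intro j
    induction j using Nat.strong_induction_on with
    | _ j ih =>
      intro hj
      rcases Nat.lt_or_ge j 3 with h | h
      · interval_cases j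
        · exact ⟨a00, a10, a20⟩
        · exact ⟨a01, a11, a21⟩
        · exact ⟨a02, a12, a22⟩
      · obtain ⟨b0, b1, b2⟩ := ih (j - 1) (by omega) (by omega)
        have c1 : At (closure Adj A) 1 j := at_of (by omega) (by omega) b0 b1 b2
          (by omega) (by omega) (by omega) (by omega) (by omega) (by omega)
        have c0 : At (closure Adj A) 0 j := at_of (by omega) (by omega) b0 b1 c1
          (by omega) (by omega) (by omega) (by omega) (by omega) (by omega)
        have c2 : At (closure Adj A) 2 j := at_of (by omega) (by omega) b1 b2 c1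
          (by omega) (by omega) (by omega) (by omega) (by omega) (by omega)
        exact ⟨c0, c1, c2⟩
  refine univ_of_at fun i => ?_
  induction i using Nat.strong_induction_on with
  | _ i ih =>
    intro j hi hj
    rcases Nat.lt_or_ge i 3 with h | h
    · interval_cases i
      · exact (h3 j hj).1
      · exact (h3 j hj).2.1
      · exact (h3 j hj).2.2
    · have up : ∀ j, j < n → At (closure Adj A) (i - 1) j := fun j hj =>
        ih (i - 1) (by omega) j (by omega) hj
      have mid : ∀ j, 1 ≤ j → j + 1 < n → At (closure Adj A) i j := fun j h1 h2 =>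
        at_of (by omega) (by omega) (up (j - 1) (by omega)) (up j (by omega)) (up (j + 1) (by omega))
          (by omega) (by omega) (by omega) (by omega) (by omega) (by omega)
      rcases Nat.eq_zero_or_pos j with h0 | h0
      · subst h0
        exact at_of (by omega) (by omega) (up 0 (by omega)) (up 1 (by omega)) (mid 1 le_rfl (by omega))
          (by omega) (by omega) (by omega) (by omega) (by omega) (by omega)
      · rcases Nat.lt_or_ge (j + 1) n with h1 | h1
        · exact mid j h0 h1
        · exact at_of (by omega) (by omega) (up j (by omega)) (up (j - 1) (by omega))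
            (mid (j - 1) (by omega) (by omega))
            (by omega) (by omega) (by omega) (by omega) (by omega) (by omega)

/-- the infecting set for two rows -/
def T (n : ℕ) : Set (Fin 2 × Fin n) :=
  {u | (u.2 : ℕ) = 0 ∨ ((u.1 : ℕ) = 0 ∧ ((u.2 : ℕ) % 2 = 0 ∨ (u.2 : ℕ) + 1 = n))}

lemma T_infect (n : ℕ) : closure Adj (T n) = Set.univ := by
  have h3 : ∀ j, j < n → At (closure Adj (T n)) 0 j ∧ At (closure Adj (T n)) 1 j := by
    intro j
    induction j using Nat.strong_induction_on with
    | _ j ih =>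
      intro hj
      rcases Nat.eq_zero_or_pos j with h0 | h0
      · subst h0
        exact ⟨at_mem (by omega) hj (Or.inl rfl), at_mem (by omega) hj (Or.inl rfl)⟩
      · obtain ⟨b0, b1⟩ := ih (j - 1) (by omega) (by omega)
        by_cases hp : j % 2 = 0 ∨ j + 1 = n
        · have c0 : At (closure Adj (T n)) 0 j := at_mem (by omega) hj (Or.inr ⟨rfl, hp⟩)
          exact ⟨c0, at_of (by omega) hj b0 b1 c0
            (by omega) (by omega) (by omega) (by omega) (by omega) (by omega)⟩
        · push Not at hp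
          have c : At (closure Adj (T n)) 0 (j + 1) :=
            at_mem (by omega) (by omega) (Or.inr ⟨rfl, Or.inl (by simp; omega)⟩)
          exact ⟨at_of (by omega) hj b0 b1 c
            (by omega) (by omega) (by omega) (by omega) (by omega) (by omega),
            at_of (by omega) hj b0 b1 c
            (by omega) (by omega) (by omega) (by omega) (by omega) (by omega)⟩
  refine univ_of_at fun i j hi hj => ?_
  interval_cases i
  · exact (h3 j hj).1
  · exact (h3 j hj).2

lemma T_card (hn : 1 ≤ n) : (T n).ncard ≤ n / 2 + 2 := by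
  classical
  -- an injection to the numbers below `n / 2 + 2`
  have : (T n).ncard ≤ (Finset.range (n / 2 + 2)).card := by
    rw [← Set.ncard_coe_finset]
    refine Set.ncard_le_ncard_of_injOn
      (fun u => if (u.1 : ℕ) = 1 then n / 2 + 1 else if (u.2 : ℕ) % 2 = 0 then (u.2 : ℕ) / 2 else n / 2)
      ?_ ?_ (Set.toFinite _)
    · intro u hu
      have h2 := u.2.2
      have h1 := u.1.2
      simp only [Finset.coe_range, Set.mem_Iio]
      split_ifs <;> omega
    · rintro ⟨⟨a, ha⟩, ⟨b, hb⟩⟩ hu ⟨⟨c, hc⟩, ⟨d, hd⟩⟩ hv h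
      simp only [T, Set.mem_ofPred_eq] at hu hv
      simp only at h
      simp only [Prod.mk.injEq, Fin.mk.injEq]
      split_ifs at h <;> omega
  simpa using this

end Pool.Agent.Helper46K9.BP
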