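import Pool.Agent.Helper46K9.BP.Two
import Pool.Agent.Helper46K9.BP.Upper

set_option autoImplicit false

namespace Pool.Agent.Helper46K9.BP

variable {m n : ℕ}

/-- the minimum size of a fully infecting set -/
noncomputable def m3 (m n : ℕ) : ℕ :=
  sInf {k | ∃ A : Set (Fin m × Fin n), A.ncard = k ∧ closure Adj A = Set.univ}

lemma m3_le {A : Set (Fin m × Fin n)} (hA : closure Adj A = Set.univ) : m3 m n ≤ A.ncard :=
  Nat.sInf_le ⟨A, rfl, hA⟩

lemma le_m3 {k : ℕ} (h : ∀ A : Set (Fin m × Fin n), closure Adj A = Set.univ → k ≤ A.ncard) :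
    k ≤ m3 m n := by
  have hne : {k | ∃ A : Set (Fin m × Fin n), A.ncard = k ∧ closure Adj A = Set.univ}.Nonempty :=
    ⟨_, Set.univ, rfl, Set.eq_univ_of_univ_subset (subset_closure _)⟩
  obtain ⟨A, h1, h2⟩ := Nat.sInf_mem hne
  exact (h A h2).trans_eq h1

/-- a set which does not grow is everything -/
lemma eq_univ_of_no_growth {A : Set (Fin m × Fin n)} (hA : closure Adj A = Set.univ)
    (h : ∀ v, {u | u ∈ A ∧ Adj u v}.ncard < 3) : A = Set.univ := by
  refine Set.eq_univ_of_univ_subset (hA ▸ closure_subset le_rfl ?_)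
  rintro v (hv | hv)
  · exact hv
  · exact absurd hv (not_le.2 (h v))

lemma ncard_univ' : (Set.univ : Set (Fin m × Fin n)).ncard = m * n := by
  rw [Set.ncard_univ, Nat.card_eq_fintype_card]
  simp

lemma three_le {A : Set (Fin m × Fin n)} (hA : closure Adj A = Set.univ) (h : 3 ≤ m * n) :
    3 ≤ A.ncard := by
  by_contra hlt
  push Not at hlt
  have := eq_univ_of_no_growth hA fun v =>
    lt_of_le_of_lt (Set.ncard_le_ncard (fun u hu => hu.1) (Set.toFinite _)) hlt
  rw [this, ncard_univ'] at hlt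
  omega

lemma m3_three (hm : 3 ≤ m) (hn : 3 ≤ n) : m3 m n = 3 := by
  refine le_antisymm ?_ (le_m3 fun A hA => three_le hA (by nlinarith))
  refine (m3_le (three_infect hm hn)).trans ?_
  refine (Set.ncard_insert_le _ _).trans ?_
  have := Set.ncard_insert_le ((⟨1, by omega⟩, ⟨1, by omega⟩) : Fin m × Fin n)
    {((⟨1, by omega⟩, ⟨2, by omega⟩) : Fin m × Fin n)}
  rw [Set.ncard_singleton] at this
  omega

lemma m3_two (hn : 1 ≤ n) : m3 2 n = n / 2 + 2 := by
  refine le_antisymm ((m3_le (T_infect n)).trans (T_card hn)) (le_m3 fun A hA => ?_)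
  have := two_lower hn hA
  omega

lemma m3_one : m3 1 n = n := by
  refine le_antisymm ?_ (le_m3 fun A hA => ?_)
  · have := m3_le (A := (Set.univ : Set (Fin 1 × Fin n)))
      (Set.eq_univ_of_univ_subset (subset_closure _))
    rwa [ncard_univ', one_mul] at this
  · have : A = Set.univ := by
      refine eq_univ_of_no_growth hA fun v => ?_
      have hsub : {u | u ∈ A ∧ Adj u v} ⊆
          {u : Fin 1 × Fin n | (u.2 : ℕ) + 1 = v.2} ∪ {u | (u.2 : ℕ) = v.2 + 1} := by
        rintro u ⟨-, h1, -, h2⟩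
        rw [abs_le] at h2
        have h3 : (u.2 : ℕ) ≠ v.2 := fun h => h1 (Prod.ext (Subsingleton.elim _ _) (Fin.ext h))
        have : (u.2 : ℕ) + 1 = v.2 ∨ (u.2 : ℕ) = v.2 + 1 := by omega
        exact this
      have s1 : {u : Fin 1 × Fin n | (u.2 : ℕ) + 1 = v.2}.ncard ≤ 1 := by
        rw [Set.ncard_le_one (Set.toFinite _)]
        intro a ha b hb
        rw [Set.mem_ofPred_eq] at ha hb
        exact Prod.ext (Subsingleton.elim _ _) (Fin.ext (by omega))
      have s2 : {u : Fin 1 × Fin n | (u.2 : ℕ) = v.2 + 1}.ncard ≤ 1 := by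
        rw [Set.ncard_le_one (Set.toFinite _)]
        intro a ha b hb
        rw [Set.mem_ofPred_eq] at ha hb
        exact Prod.ext (Subsingleton.elim _ _) (Fin.ext (by omega))
      have := (Set.ncard_le_ncard hsub (Set.toFinite _)).trans (Set.ncard_union_le _ _)
      omega
    rw [this, ncard_univ', one_mul]

lemma step_swap (A : Set (Fin m × Fin n)) :
    step Adj (Prod.swap ⁻¹' A : Set (Fin n × Fin m)) = Prod.swap ⁻¹' (step Adj A) := by
  ext v
  simp only [step, Set.mem_union, Set.mem_preimage, Set.mem_ofPred_eq]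
  have : {u : Fin n × Fin m | u.swap ∈ A ∧ Adj u v}
      = Prod.swap ⁻¹' {u : Fin m × Fin n | u ∈ A ∧ Adj u v.swap} := by
    ext u
    simp only [Set.mem_ofPred_eq, Set.mem_preimage, Adj, Prod.fst_swap, Prod.snd_swap]
    have : (u.swap ≠ v.swap) ↔ u ≠ v := not_congr Prod.swap_injective.eq_iff
    rw [this]
    tauto
  rw [this]
  have e : (Prod.swap ⁻¹' {u : Fin m × Fin n | u ∈ A ∧ Adj u v.swap} : Set (Fin n × Fin m)).ncard
      = {u : Fin m × Fin n | u ∈ A ∧ Adj u v.swap}.ncard := by
    rw [← Set.image_swap_eq_preimage_swap]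
    exact Set.ncard_image_of_injective _ Prod.swap_injective
  rw [e]

lemma closure_swap (A : Set (Fin m × Fin n)) :
    closure Adj (Prod.swap ⁻¹' A : Set (Fin n × Fin m)) = Prod.swap ⁻¹' (closure Adj A) := by
  unfold closure
  rw [Set.preimage_iUnion]
  congr 1
  funext t
  induction t with
  | zero => rfl
  | succ t ih => rw [Function.iterate_succ_apply', Function.iterate_succ_apply', ih, step_swap]

lemma m3_swap_le (m n : ℕ) : m3 n m ≤ m3 m n := by
  refine le_m3 fun A hA => ?_
  have h : closure Adj (Prod.swap ⁻¹' A : Set (Fin n × Fin m)) = Set.univ := by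
    rw [closure_swap, hA, Set.preimage_univ]
  refine (m3_le h).trans ?_
  rw [← Set.image_swap_eq_preimage_swap, Set.ncard_image_of_injective _ Prod.swap_injective]

lemma m3_swap (m n : ℕ) : m3 n m = m3 m n := le_antisymm (m3_swap_le m n) (m3_swap_le n m)

end Pool.Agent.Helper46K9.BP
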