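import Pool.Agent.Helper46K9.BP.Basic

set_option autoImplicit false

namespace Pool.Agent.Helper46K9.BP

open Finset

/-- the set of the cells of `B` in column `j` (columns are numbered from 1) -/
def colSet {n : ℕ} (B : Set (Fin 2 × Fin n)) (j : ℕ) : Set (Fin 2 × Fin n) :=
  {u : Fin 2 × Fin n | u ∈ B ∧ (u.2 : ℕ) + 1 = j}

/-- number of cells of `B` in column `j` -/
noncomputable def col {n : ℕ} (B : Set (Fin 2 × Fin n)) (j : ℕ) : ℕ := (colSet B j).ncard

/-- interaction of two consecutive columns -/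
def G : ℕ → ℕ → ℕ
  | 0, 0 => 0
  | 0, 1 => 1
  | 1, 0 => 1
  | 0, _ => 2
  | _, 0 => 2
  | 1, _ => 2
  | _, 1 => 2
  | _, _ => 1

/-- potential -/
def Psi (n : ℕ) (c : ℕ → ℕ) : ℕ := ∑ i ∈ range (n + 1), G (c i) (c (i + 1))

lemma G_le {x y : ℕ} (hx : x ≤ 2) (hy : y ≤ 2) : G x y ≤ x + y := by
  interval_cases x <;> interval_cases y <;> decide

lemma Psi_update {n : ℕ} {c : ℕ → ℕ} (hc : ∀ i, c i ≤ 2) {i : ℕ} (hi : i < n)
    (h1 : c (i + 1) ≤ 1) (h3 : 3 ≤ c i + c (i + 1) + c (i + 2)) :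
    Psi n (Function.update c (i + 1) 2) ≤ Psi n c := by
  unfold Psi
  set f := fun k => G (c k) (c (k + 1)) with hf
  set g := fun k => G (Function.update c (i + 1) 2 k) (Function.update c (i + 1) 2 (k + 1)) with hg
  have hi1 : i ∈ range (n + 1) := by simp; omega
  have hi2 : i + 1 ∈ (range (n + 1)).erase i := by simp; omega
  have ef : ∀ F : ℕ → ℕ, ∑ k ∈ range (n + 1), F k
      = F i + (F (i + 1) + ∑ k ∈ ((range (n + 1)).erase i).erase (i + 1), F k) := by
    intro F
    rw [Finset.add_sum_erase _ _ hi2, Finset.add_sum_erase _ _ hi1]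
  have e1 : ∑ k ∈ ((range (n + 1)).erase i).erase (i + 1), g k
      = ∑ k ∈ ((range (n + 1)).erase i).erase (i + 1), f k := by
    refine Finset.sum_congr rfl fun k hk => ?_
    simp only [mem_erase, ne_eq, mem_range] at hk
    simp only [hf, hg]
    rw [Function.update_of_ne (by omega), Function.update_of_ne (by omega)]
  rw [ef g, ef f, e1]
  have key : g i + g (i + 1) ≤ f i + f (i + 1) := by
    simp only [hf, hg]
    rw [Function.update_self, Function.update_of_ne (by omega), Function.update_of_ne (by omega)]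
    have hx := hc i
    have hy := hc (i + 2)
    change G (c i) 2 + G 2 (c (i + 2)) ≤ G (c i) (c (i + 1)) + G (c (i + 1)) (c (i + 2))
    generalize c i = x at *
    generalize c (i + 1) = z at *
    generalize c (i + 2) = y at *
    interval_cases x <;> interval_cases y <;> interval_cases z <;> first | omega | decide
  omega

variable {n : ℕ}

lemma colSet_subset (B : Set (Fin 2 × Fin n)) (j : Fin n) :
    colSet B (j + 1) ⊆ {(0, j), (1, j)} := by
  rintro ⟨a, b⟩ ⟨_, h⟩
  have : b = j := Fin.ext (by simpa using h)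
  subst this
  fin_cases a <;> simp

lemma col_eq_zero (B : Set (Fin 2 × Fin n)) {j : ℕ} (h : j = 0 ∨ n < j) : col B j = 0 := by
  unfold col
  rw [Set.ncard_eq_zero (Set.toFinite _)]
  ext ⟨a, b⟩
  simp only [colSet, Set.mem_ofPred_eq, Set.mem_empty_iff_false, iff_false, not_and]
  intro _ hb
  have := b.2
  omega

lemma col_le (B : Set (Fin 2 × Fin n)) (j : ℕ) : col B j ≤ 2 := by
  by_cases h : j = 0 ∨ n < j
  · rw [col_eq_zero B h]; omega
  · push Not at h
    obtain ⟨i, rfl⟩ : ∃ i, j = i + 1 := ⟨j - 1, by omega⟩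
    have hi : i < n := by omega
    calc col B (i + 1) ≤ ({(0, ⟨i, hi⟩), (1, ⟨i, hi⟩)} : Set (Fin 2 × Fin n)).ncard :=
          Set.ncard_le_ncard (colSet_subset B ⟨i, hi⟩) (Set.toFinite _)
      _ ≤ 2 := Set.ncard_insert_le _ _ |>.trans (by rw [Set.ncard_singleton])

lemma col_le_one {B : Set (Fin 2 × Fin n)} {v : Fin 2 × Fin n} (hv : v ∉ B) :
    col B (v.2 + 1) ≤ 1 := by
  have h1 : colSet B (v.2 + 1) ⊆ ({(0, v.2), (1, v.2)} : Set (Fin 2 × Fin n)) \ {v} := by
    intro u hu
    exact ⟨colSet_subset B v.2 hu, fun h => hv (by rw [Set.mem_singleton_iff] at h; exact h ▸ hu.1)⟩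
  refine le_trans (Set.ncard_le_ncard h1 (Set.toFinite _)) ?_
  have hv' : v ∈ ({(0, v.2), (1, v.2)} : Set (Fin 2 × Fin n)) := by
    obtain ⟨a, b⟩ := v
    fin_cases a <;> simp
  have := Set.ncard_sdiff_singleton_of_mem hv'
  rw [this]
  have h2 : ({(0, v.2), (1, v.2)} : Set (Fin 2 × Fin n)).ncard ≤ 2 :=
    Set.ncard_insert_le _ _ |>.trans (by rw [Set.ncard_singleton])
  omega

lemma nbr_le (B : Set (Fin 2 × Fin n)) (v : Fin 2 × Fin n) :
    {u | u ∈ B ∧ Adj u v}.ncard ≤ col B v.2 + col B (v.2 + 1) + col B (v.2 + 2) := by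
  have : {u | u ∈ B ∧ Adj u v} ⊆ colSet B v.2 ∪ colSet B (v.2 + 1) ∪ colSet B (v.2 + 2) := by
    rintro u ⟨hu, -, -, h⟩
    rw [abs_le] at h
    have : (u.2 : ℕ) + 1 = v.2 ∨ (u.2 : ℕ) + 1 = v.2 + 1 ∨ (u.2 : ℕ) + 1 = v.2 + 2 := by omega
    rcases this with h | h | h
    · exact Or.inl (Or.inl ⟨hu, h⟩)
    · exact Or.inl (Or.inr ⟨hu, h⟩)
    · exact Or.inr ⟨hu, h⟩
  refine le_trans (Set.ncard_le_ncard this (Set.toFinite _)) ?_
  refine le_trans (Set.ncard_union_le _ _) ?_
  exact Nat.add_le_add_right (Set.ncard_union_le _ _) _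

lemma col_fill (B : Set (Fin 2 × Fin n)) (j : Fin n) :
    col (B ∪ {u | u.2 = j}) = Function.update (col B) (j + 1) 2 := by
  funext i
  by_cases h : i = (j : ℕ) + 1
  · subst h
    rw [Function.update_self]
    unfold col
    have : colSet (B ∪ {u | u.2 = j}) (j + 1) = {(0, j), (1, j)} := by
      refine Set.Subset.antisymm (colSet_subset _ _) ?_
      rintro u (rfl | rfl)
      · exact ⟨Or.inr rfl, rfl⟩
      · exact ⟨Or.inr rfl, rfl⟩
    rw [this, Set.ncard_pair (by simp)]
  · rw [Function.update_of_ne h]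
    unfold col
    congr 1
    ext u
    simp only [colSet, Set.mem_ofPred_eq, Set.mem_union]
    constructor
    · rintro ⟨h1 | h1, h2⟩
      · exact ⟨h1, h2⟩
      · exact absurd (by rw [← h2, h1]) h
    · rintro ⟨h1, h2⟩
      exact ⟨Or.inl h1, h2⟩

lemma exists_closed (B : Set (Fin 2 × Fin n)) :
    ∃ B' : Set (Fin 2 × Fin n), B ⊆ B' ∧ step Adj B' ⊆ B' ∧ Psi n (col B') ≤ Psi n (col B) := by
  induction h : (Bᶜ).ncard using Nat.strong_induction_on generalizing B with
  | _ N ih =>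
    by_cases hB : step Adj B ⊆ B
    · exact ⟨B, le_rfl, hB, le_rfl⟩
    · obtain ⟨v, hv, hvB⟩ := Set.not_subset.1 hB
      have h3 : 3 ≤ {u | u ∈ B ∧ Adj u v}.ncard := by
        rcases hv with hv | hv
        · exact absurd hv hvB
        · exact hv
      have h3' := h3.trans (nbr_le B v)
      have hle : Psi n (col (B ∪ {u | u.2 = v.2})) ≤ Psi n (col B) := by
        rw [col_fill]
        exact Psi_update (col_le B) v.2.2 (col_le_one hvB) h3'
      have hlt : ((B ∪ {u | u.2 = v.2})ᶜ).ncard < N := by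
        rw [← h]
        refine Set.ncard_lt_ncard ?_ (Set.toFinite _)
        refine ⟨Set.compl_subset_compl.2 Set.subset_union_left, fun hh => ?_⟩
        exact (hh (show v ∈ Bᶜ from hvB)) (Or.inr rfl)
      obtain ⟨B', h1, h2, h4⟩ := ih _ hlt _ rfl
      exact ⟨B', Set.subset_union_left.trans h1, h2, h4.trans hle⟩

lemma sum_col (B : Set (Fin 2 × Fin n)) : ∑ j ∈ range (n + 2), col B j = B.ncard := by
  classical
  have h := Set.toFinite B
  rw [Set.ncard_eq_toFinset_card B h]
  rw [Finset.card_eq_sum_card_fiberwise (f := fun u : Fin 2 × Fin n => (u.2 : ℕ) + 1)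
    (t := range (n + 2))]
  · refine Finset.sum_congr rfl fun j _ => ?_
    unfold col
    rw [Set.ncard_eq_toFinset_card _ (Set.toFinite _)]
    congr 1
    ext u
    rw [Set.Finite.mem_toFinset, Finset.mem_filter, Set.Finite.mem_toFinset]
    exact Iff.rfl
  · intro u _
    have := u.2.2
    simp only [coe_range, Set.mem_Iio]
    omega

lemma Psi_le (B : Set (Fin 2 × Fin n)) : Psi n (col B) ≤ 2 * B.ncard := by
  have h1 : Psi n (col B) ≤ ∑ i ∈ range (n + 1), (col B i + col B (i + 1)) :=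
    Finset.sum_le_sum fun i _ => G_le (col_le B i) (col_le B (i + 1))
  rw [Finset.sum_add_distrib] at h1
  have h2 := sum_col B
  have h3 := h2
  rw [Finset.sum_range_succ, col_eq_zero B (j := n + 1) (Or.inr (by omega))] at h2
  rw [Finset.sum_range_succ', col_eq_zero B (j := 0) (Or.inl rfl)] at h3
  omega

lemma Psi_univ (hn : 1 ≤ n) : Psi n (col (Set.univ : Set (Fin 2 × Fin n))) = n + 3 := by
  have hc : ∀ j, col (Set.univ : Set (Fin 2 × Fin n)) j = if 1 ≤ j ∧ j ≤ n then 2 else 0 := by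
    intro j
    split_ifs with h
    · obtain ⟨i, rfl⟩ : ∃ i, j = i + 1 := ⟨j - 1, by omega⟩
      have := congrFun (col_fill (Set.univ : Set (Fin 2 × Fin n)) ⟨i, by omega⟩) (i + 1)
      rw [Set.univ_union] at this
      rw [this]
      simp
    · exact col_eq_zero _ (by omega)
  unfold Psi
  obtain ⟨k, rfl⟩ : ∃ k, n = k + 1 := ⟨n - 1, by omega⟩
  rw [Finset.sum_range_succ, Finset.sum_range_succ']
  have : ∑ i ∈ range k, G (col (Set.univ : Set (Fin 2 × Fin (k + 1))) (i + 1))
      (col (Set.univ : Set (Fin 2 × Fin (k + 1))) (i + 1 + 1)) = ∑ i ∈ range k, 1 := by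
    refine Finset.sum_congr rfl fun i hi => ?_
    rw [mem_range] at hi
    rw [hc, hc, if_pos (by omega), if_pos (by omega)]
    rfl
  rw [this, hc, hc, hc, hc]
  rw [if_neg (by omega), if_pos (by omega), if_pos (by omega), if_neg (by omega)]
  simp [G]

/-- lower bound for two rows -/
lemma two_lower (hn : 1 ≤ n) {A : Set (Fin 2 × Fin n)} (hA : closure Adj A = Set.univ) :
    n + 3 ≤ 2 * A.ncard := by
  obtain ⟨B, h1, h2, h3⟩ := exists_closed A
  have h4 : B = Set.univ := Set.eq_univ_of_univ_subset (hA ▸ closure_subset h1 h2)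
  rw [h4, Psi_univ hn] at h3
  exact h3.trans (Psi_le A)

end Pool.Agent.Helper46K9.BP
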